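import Mathlib

set_option autoImplicit false

/-!
# Player 2 wins the Tribonacci Zeckendorf game for every `n` except `2, 3, 6`

Positions are finite multisets of terms of the sequence `S 1 = 1, S 2 = 2, S 3 = 4`,
`S (i + 1) = S i + S (i - 1) + S (i - 2)`. `MoverWins A` says that the player who is to move in the
position `A` has a winning strategy (normal play: the player who makes the last move wins).

The proof is by strategy stealing. Suppose that Player 1 wins. Then the position `{2}` (besides
ones) after his only first move is lost for the player to move, so `{4}` is won, its only option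
`{2, 4}` is lost, so `{4, 4}` and `{7}` are won; the only option `{2, 7}` of `{7}` is lost, and as
`{4, 4}` has only the options `{2, 4, 4}` and `{7}`, the former is lost; but `{2, 7}` is an option
of it, a contradiction.
-/

namespace Pool.Agent.Results.MP_7f8e47_co.PlayerTwoWins

open Multiset

/-- The sequence `S 1 = 1`, `S 2 = 2`, `S 3 = 4`, `S (i + 1) = S i + S (i - 1) + S (i - 2)`
(with the convention `S 0 = 1`, which is not used in the game). -/
def S : ℕ → ℕ
  | 0 => 1
  | 1 => 1
  | 2 => 2
  | (i + 3) => S (i + 2) + S (i + 1) + S i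

/-- The moves of the Tribonacci game: some terms of the multiset are removed, others are inserted. -/
inductive Move : Multiset ℕ → Multiset ℕ → Prop
  | rule1 (M : Multiset ℕ) (i : ℕ) (hi : 3 ≤ i) :
      Move (M + {S (i - 2), S (i - 1), S i}) (M + {S (i + 1)})
  | rule2 (M : Multiset ℕ) : Move (M + {S 1, S 1, S 2}) (M + {S 3})
  | rule3 (M : Multiset ℕ) : Move (M + {S 1, S 1}) (M + {S 2})
  | rule4 (M : Multiset ℕ) : Move (M + {S 2, S 2}) (M + {S 3})
  | rule5 (M : Multiset ℕ) : Move (M + {S 3, S 3}) (M + {S 4, S 1})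
  | rule6 (M : Multiset ℕ) (i : ℕ) (hi : 4 ≤ i) :
      Move (M + {S i, S i}) (M + {S (i + 1), S (i - 3)})

/-- The player who is to move in the position `A` has a winning strategy: he can move to a position
`B` such that after every reply `C` of his opponent he again has a winning strategy (if the opponent
has no reply then he has made the last move and has won). -/
inductive MoverWins : Multiset ℕ → Prop
  | intro (A B : Multiset ℕ) (h : Move A B) (hB : ∀ C, Move B C → MoverWins C) : MoverWins A

/-- Player 2 has a winning strategy in the game on `n`: after every first move of Player 1 he is to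
move and has a winning strategy. -/
def SecondWins (n : ℕ) : Prop := ∀ B, Move (replicate n (S 1)) B → MoverWins B

/-! ### The sequence -/

theorem S1 : S 1 = 1 := rfl
theorem S2 : S 2 = 2 := rfl
theorem S3 : S 3 = 4 := rfl
theorem S4 : S 4 = 7 := rfl
theorem S5 : S 5 = 13 := rfl

theorem S_rec (i : ℕ) : S (i + 3) = S (i + 2) + S (i + 1) + S i := rfl

theorem S_pos : ∀ i, 0 < S i
  | 0 => by decide
  | 1 => by decide
  | 2 => by decide
  | (i + 3) => by
    rw [S_rec]
    have := S_pos i
    omega

theorem S_big (i : ℕ) (hi : 5 ≤ i) : 13 ≤ S i := by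
  obtain ⟨j, rfl⟩ := Nat.exists_eq_add_of_le hi
  induction j with
  | zero => decide
  | succ j ih =>
    have h := S_rec (5 + j - 2)
    have e1 : 5 + j - 2 + 3 = 5 + (j + 1) := by omega
    have e2 : 5 + j - 2 + 2 = 5 + j := by omega
    rw [e1, e2] at h
    have := ih (by omega)
    omega

/-! ### Termination: the potential of a term is a decreasing weight -/

/-- The weight of a term: `S i` has weight `i + 1` (for `i = 1, 2, …`). -/
noncomputable def wt (x : ℕ) : ℕ := sInf {i : ℕ | 1 ≤ i ∧ S i = x} + 1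

theorem S_mono : StrictMono (fun i => S (i + 1)) := by
  apply strictMono_nat_of_lt_succ
  intro i
  match i with
  | 0 => decide
  | 1 => decide
  | (i + 2) =>
    have h := S_rec (i + 1)
    have := S_pos (i + 2)
    have := S_pos (i + 1)
    have e1 : i + 1 + 3 = i + 2 + 1 + 1 := by omega
    have e2 : i + 1 + 2 = i + 2 + 1 := by omega
    rw [e1, e2] at h
    show S (i + 2 + 1) < S (i + 2 + 1 + 1)
    omega

theorem S_inj {i j : ℕ} (hi : 1 ≤ i) (hj : 1 ≤ j) (h : S i = S j) : i = j := by
  obtain ⟨a, rfl⟩ := Nat.exists_eq_add_of_le' hi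
  obtain ⟨b, rfl⟩ := Nat.exists_eq_add_of_le' hj
  rw [S_mono.injective h]

theorem wt_S {i : ℕ} (hi : 1 ≤ i) : wt (S i) = i + 1 := by
  have : {j : ℕ | 1 ≤ j ∧ S j = S i} = {i} := by
    ext j
    constructor
    · rintro ⟨h1, h2⟩
      exact S_inj h1 hi h2
    · rintro rfl
      exact ⟨hi, rfl⟩
  rw [wt, this, csInf_singleton]

/-- The weight of a position. -/
noncomputable def W (A : Multiset ℕ) : ℕ := (A.map wt).sum

theorem W_add (A B : Multiset ℕ) : W (A + B) = W A + W B := by simp [W]

theorem W_lt {A B : Multiset ℕ} (h : Move A B) : W B < W A := by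
  cases h with
  | rule1 M i hi =>
    rw [W_add, W_add]
    simp only [W, insert_eq_cons, map_cons, map_singleton, sum_cons, sum_singleton]
    rw [wt_S (by omega), wt_S (by omega), wt_S (by omega), wt_S (by omega)]
    omega
  | rule2 M =>
    rw [W_add, W_add]
    simp only [W, insert_eq_cons, map_cons, map_singleton, sum_cons, sum_singleton]
    rw [wt_S (by omega), wt_S (by omega), wt_S (by omega)]
    omega
  | rule3 M =>
    rw [W_add, W_add]
    simp only [W, insert_eq_cons, map_cons, map_singleton, sum_cons, sum_singleton]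
    rw [wt_S (by omega), wt_S (by omega)]
    omega
  | rule4 M =>
    rw [W_add, W_add]
    simp only [W, insert_eq_cons, map_cons, map_singleton, sum_cons, sum_singleton]
    rw [wt_S (by omega), wt_S (by omega)]
    omega
  | rule5 M =>
    rw [W_add, W_add]
    simp only [W, insert_eq_cons, map_cons, map_singleton, sum_cons, sum_singleton]
    rw [wt_S (by omega), wt_S (by omega), wt_S (by omega)]
    omega
  | rule6 M i hi =>
    rw [W_add, W_add]
    simp only [W, insert_eq_cons, map_cons, map_singleton, sum_cons, sum_singleton]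
    rw [wt_S (by omega), wt_S (by omega), wt_S (by omega)]
    omega

/-- The player who is to move loses. -/
def Loses (A : Multiset ℕ) : Prop := ∀ B, Move A B → MoverWins B

theorem wins_iff {A : Multiset ℕ} : MoverWins A ↔ ∃ B, Move A B ∧ Loses B :=
  ⟨fun h => by cases h with | intro _ B h hB => exact ⟨B, h, hB⟩, fun ⟨B, h, hB⟩ => ⟨A, B, h, hB⟩⟩

theorem wins_or_loses (A : Multiset ℕ) : MoverWins A ∨ Loses A := by
  induction hn : W A using Nat.strong_induction_on generalizing A with
  | _ n ih =>
    subst hn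
    by_cases h : ∃ B, Move A B ∧ Loses B
    · exact Or.inl (wins_iff.2 h)
    · right
      intro B hB
      rcases ih _ (W_lt hB) B rfl with h1 | h1
      · exact h1
      · exact absurd ⟨B, hB, h1⟩ h

theorem not_both {A : Multiset ℕ} (h : MoverWins A) : ¬ Loses A := by
  induction h with
  | intro A B h hB ih =>
    intro hA
    have h1 := hA B h
    obtain ⟨C, hC, hC'⟩ := wins_iff.1 h1
    exact ih C hC hC'

/-! ### Positions with terms `1, 2, 4, 7` -/

/-- The position with `a` terms `1`, `b` terms `2`, `c` terms `4` and `d` terms `7`. -/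
def pos (a b c d : ℕ) : Multiset ℕ := replicate a 1 + replicate b 2 + replicate c 4 + replicate d 7

theorem mem_pos {a b c d x : ℕ} (h : x ∈ pos a b c d) : x = 1 ∨ x = 2 ∨ x = 4 ∨ x = 7 := by
  simp only [pos, mem_add, mem_replicate] at h
  tauto

theorem count1 (a b c d : ℕ) : count 1 (pos a b c d) = a := by simp [pos, count_replicate]
theorem count2 (a b c d : ℕ) : count 2 (pos a b c d) = b := by simp [pos, count_replicate]
theorem count4 (a b c d : ℕ) : count 4 (pos a b c d) = c := by simp [pos, count_replicate]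
theorem count7 (a b c d : ℕ) : count 7 (pos a b c d) = d := by simp [pos, count_replicate]

theorem pos_eq {a b c d a' b' c' d' : ℕ} {M X : Multiset ℕ} (h : M + X = pos a b c d)
    (hX : X = pos a' b' c' d') :
    a' ≤ a ∧ b' ≤ b ∧ c' ≤ c ∧ d' ≤ d ∧ M = pos (a - a') (b - b') (c - c') (d - d') := by
  subst hX
  have h1 := congrArg (count 1) h
  have h2 := congrArg (count 2) h
  have h4 := congrArg (count 4) h
  have h7 := congrArg (count 7) h
  rw [count_add, count1, count1] at h1
  rw [count_add, count2, count2] at h2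
  rw [count_add, count4, count4] at h4
  rw [count_add, count7, count7] at h7
  refine ⟨by omega, by omega, by omega, by omega, ?_⟩
  have e : pos (a - a') (b - b') (c - c') (d - d') + pos a' b' c' d' = pos a b c d := by
    have ea : a = (a - a') + a' := by omega
    have eb : b = (b - b') + b' := by omega
    have ec : c = (c - c') + c' := by omega
    have ed : d = (d - d') + d' := by omega
    conv_rhs => rw [ea, eb, ec, ed]
    simp only [pos, replicate_add]
    abel
  rw [← e] at h
  exact add_right_cancel h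

theorem pos_add (a b c d a' b' c' d' : ℕ) :
    pos a b c d + pos a' b' c' d' = pos (a + a') (b + b') (c + c') (d + d') := by
  simp only [pos, replicate_add]
  abel

theorem ins5 : ({S 4, S 1} : Multiset ℕ) = pos 1 0 0 1 := by
  rw [pair_comm]
  rfl

/-- The moves from a position with at most one `7` and not all of `2`, `4`, `7` present. -/
theorem move_inv {a b c d : ℕ} {B : Multiset ℕ} (h : Move (pos a b c d) B) (hd : d ≤ 1)
    (hbcd : ¬ (1 ≤ b ∧ 1 ≤ c ∧ 1 ≤ d)) :
    (1 ≤ a ∧ 1 ≤ b ∧ 1 ≤ c ∧ B = pos (a - 1) (b - 1) (c - 1) (d + 1)) ∨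
    (2 ≤ a ∧ 1 ≤ b ∧ B = pos (a - 2) (b - 1) (c + 1) d) ∨
    (2 ≤ a ∧ B = pos (a - 2) (b + 1) c d) ∨
    (2 ≤ b ∧ B = pos a (b - 2) (c + 1) d) ∨
    (2 ≤ c ∧ B = pos (a + 1) b (c - 2) (d + 1)) := by
  generalize hP : pos a b c d = P at h
  cases h with
  | rule1 M i hi =>
    have hmem : S i ∈ pos a b c d := by
      rw [hP]
      simp
    have hi4 : i ≤ 4 := by
      by_contra hcon
      have := S_big i (by omega)
      rcases mem_pos hmem with h | h | h | h <;> omega
    have hi34 : i = 3 ∨ i = 4 := by omega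
    rcases hi34 with rfl | rfl
    · obtain ⟨h1, h2, h3, h4, h5⟩ := pos_eq (a' := 1) (b' := 1) (c' := 1) (d' := 0) hP.symm rfl
      refine Or.inl ⟨h1, h2, h3, ?_⟩
      rw [h5]
      exact pos_add _ _ _ _ 0 0 0 1
    · obtain ⟨h1, h2, h3, h4, h5⟩ := pos_eq (a' := 0) (b' := 1) (c' := 1) (d' := 1) hP.symm rfl
      exact absurd ⟨h2, h3, h4⟩ hbcd
  | rule2 M =>
    obtain ⟨h1, h2, h3, h4, h5⟩ := pos_eq (a' := 2) (b' := 1) (c' := 0) (d' := 0) hP.symm rfl
    refine Or.inr (Or.inl ⟨h1, h2, ?_⟩)
    rw [h5]
    exact pos_add _ _ _ _ 0 0 1 0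
  | rule3 M =>
    obtain ⟨h1, h2, h3, h4, h5⟩ := pos_eq (a' := 2) (b' := 0) (c' := 0) (d' := 0) hP.symm rfl
    refine Or.inr (Or.inr (Or.inl ⟨h1, ?_⟩))
    rw [h5]
    exact pos_add _ _ _ _ 0 1 0 0
  | rule4 M =>
    obtain ⟨h1, h2, h3, h4, h5⟩ := pos_eq (a' := 0) (b' := 2) (c' := 0) (d' := 0) hP.symm rfl
    refine Or.inr (Or.inr (Or.inr (Or.inl ⟨h2, ?_⟩)))
    rw [h5]
    exact pos_add _ _ _ _ 0 0 1 0
  | rule5 M =>
    obtain ⟨h1, h2, h3, h4, h5⟩ := pos_eq (a' := 0) (b' := 0) (c' := 2) (d' := 0) hP.symm rfl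
    refine Or.inr (Or.inr (Or.inr (Or.inr ⟨h3, ?_⟩)))
    rw [h5, ins5]
    exact pos_add _ _ _ _ 1 0 0 1
  | rule6 M i hi =>
    exfalso
    have hmem : S i ∈ pos a b c d := by
      rw [hP]
      simp
    have hi4 : i = 4 := by
      by_contra hcon
      have := S_big i (by omega)
      rcases mem_pos hmem with h | h | h | h <;> omega
    subst hi4
    obtain ⟨h1, h2, h3, h4, h5⟩ := pos_eq (a' := 0) (b' := 0) (c' := 0) (d' := 2) hP.symm rfl
    omega

theorem start_eq (n : ℕ) : replicate n (S 1) = pos n 0 0 0 := by simp [pos, S1]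

theorem mv1 (a b c d : ℕ) : Move (pos (a + 1) (b + 1) (c + 1) d) (pos a b c (d + 1)) := by
  have h := Move.rule1 (pos a b c d) 3 le_rfl
  have e1 : pos a b c d + {S (3 - 2), S (3 - 1), S 3} = pos (a + 1) (b + 1) (c + 1) d :=
    pos_add _ _ _ _ 1 1 1 0
  have e2 : pos a b c d + {S (3 + 1)} = pos a b c (d + 1) := pos_add _ _ _ _ 0 0 0 1
  rwa [e1, e2] at h

theorem mv2 (a b c d : ℕ) : Move (pos (a + 2) (b + 1) c d) (pos a b (c + 1) d) := by
  have h := Move.rule2 (pos a b c d)
  have e1 : pos a b c d + {S 1, S 1, S 2} = pos (a + 2) (b + 1) c d :=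
    pos_add _ _ _ _ 2 1 0 0
  have e2 : pos a b c d + {S 3} = pos a b (c + 1) d := pos_add _ _ _ _ 0 0 1 0
  rwa [e1, e2] at h

theorem mv3 (a b c d : ℕ) : Move (pos (a + 2) b c d) (pos a (b + 1) c d) := by
  have h := Move.rule3 (pos a b c d)
  have e1 : pos a b c d + {S 1, S 1} = pos (a + 2) b c d := pos_add _ _ _ _ 2 0 0 0
  have e2 : pos a b c d + {S 2} = pos a (b + 1) c d := pos_add _ _ _ _ 0 1 0 0
  rwa [e1, e2] at h

theorem mv5 (a b c d : ℕ) : Move (pos a b (c + 2) d) (pos (a + 1) b c (d + 1)) := by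
  have h := Move.rule5 (pos a b c d)
  have e1 : pos a b c d + {S 3, S 3} = pos a b (c + 2) d := pos_add _ _ _ _ 0 0 2 0
  have e2 : pos a b c d + {S 4, S 1} = pos (a + 1) b c (d + 1) := by
    rw [ins5]
    exact pos_add _ _ _ _ 1 0 0 1
  rwa [e1, e2] at h

/-- The only first move. -/
theorem first_move {n : ℕ} {B : Multiset ℕ} (h : Move (pos n 0 0 0) B) :
    2 ≤ n ∧ B = pos (n - 2) 1 0 0 := by
  rcases move_inv h (by omega) (by omega) with h | h | h | h | h
  · omega
  · omega
  · exact ⟨h.1, h.2⟩
  · omega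
  · omega

/-- The strategy stealing argument. -/
theorem main (n : ℕ) (hn : 7 ≤ n) : Loses (pos n 0 0 0) := by
  rcases wins_or_loses (pos n 0 0 0) with h0 | h0
  swap
  · exact h0
  exfalso
  obtain ⟨m, rfl⟩ := Nat.exists_eq_add_of_le hn
  -- the position after the first move
  obtain ⟨B, hB, hL⟩ := wins_iff.1 h0
  obtain ⟨-, rfl⟩ := first_move hB
  have e1 : 7 + m - 2 = (m + 3) + 2 := by omega
  rw [e1] at hL
  have hA : MoverWins (pos (m + 3) 0 1 0) := hL _ (mv2 (m + 3) 0 0 0)
  -- the only move from there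
  have hA' : Loses (pos (m + 1) 1 1 0) := by
    obtain ⟨B, hB, hL⟩ := wins_iff.1 hA
    rcases move_inv hB (by omega) (by omega) with h | h | h | h | h
    · omega
    · omega
    · rw [h.2] at hL
      exact hL
    · omega
    · omega
  have hD : MoverWins (pos m 0 0 1) := hA' _ (mv1 m 0 0 0)
  have hF : 2 ≤ m ∧ Loses (pos (m - 2) 1 0 1) := by
    obtain ⟨B, hB, hL⟩ := wins_iff.1 hD
    rcases move_inv hB (by omega) (by omega) with h | h | h | h | h
    · omega
    · omega
    · rw [h.2] at hL
      exact ⟨h.1, hL⟩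
    · omega
    · omega
  obtain ⟨hm, hF⟩ := hF
  obtain ⟨k, rfl⟩ := Nat.exists_eq_add_of_le' hm
  have hC : MoverWins (pos (k + 1) 0 2 0) := hA' _ (mv2 (k + 1) 0 1 0)
  obtain ⟨B, hB, hL⟩ := wins_iff.1 hC
  rcases move_inv hB (by omega) (by omega) with h | h | h | h | h
  · omega
  · omega
  · obtain ⟨h1, rfl⟩ := h
    have hw := hL _ (mv5 (k + 1 - 2) 1 0 0)
    have e2 : k + 1 - 2 + 1 = k + 2 - 2 := by omega
    rw [e2] at hw
    exact not_both hw hF
  · omega
  · obtain ⟨h1, rfl⟩ := h
    exact not_both hD hL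

theorem loses_of_no_move {A : Multiset ℕ} (h : ∀ B, ¬ Move A B) : Loses A :=
  fun B hB => absurd hB (h B)

theorem loses_start (n : ℕ) (h : Loses (pos n 0 0 0)) : SecondWins n := by
  intro B hB
  rw [start_eq] at hB
  exact h B hB

/-- A position with at most one `1`, at most one `2`, at most one `4` and no `7`, not all three
present. -/
theorem terminal (a b c : ℕ) (ha : a ≤ 1) (hb : b ≤ 1) (hc : c ≤ 1) (h : ¬ (a = 1 ∧ b = 1 ∧ c = 1)) :
    Loses (pos a b c 0) := by
  apply loses_of_no_move
  intro B hB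
  rcases move_inv hB (by omega) (by omega) with h | h | h | h | h <;> omega

theorem second_iff (n : ℕ) : SecondWins n ↔ ¬ MoverWins (pos n 0 0 0) := by
  constructor
  · intro h hw
    refine not_both hw ?_
    intro B hB
    rw [← start_eq] at hB
    exact h B hB
  · intro h
    exact loses_start n ((wins_or_loses _).resolve_left h)

/-- Player 2 has a winning strategy in the Tribonacci game on `n` for all `n` except `n = 2, 3, 6`; in
particular for all `n ≥ 7`. -/
theorem result (n : ℕ) (hn : 1 ≤ n) : SecondWins n ↔ n ≠ 2 ∧ n ≠ 3 ∧ n ≠ 6 := by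
  constructor
  · intro h
    rw [second_iff] at h
    refine ⟨?_, ?_, ?_⟩
    · rintro rfl
      exact h (wins_iff.2 ⟨_, mv3 0 0 0 0,
        terminal 0 1 0 (by omega) le_rfl (by omega) (by omega)⟩)
    · rintro rfl
      exact h (wins_iff.2 ⟨_, mv3 1 0 0 0, terminal 1 1 0 le_rfl le_rfl (by omega) (by omega)⟩)
    · rintro rfl
      have h011 : Loses (pos 0 1 1 0) := terminal 0 1 1 (by omega) le_rfl le_rfl (by omega)
      refine h (wins_iff.2 ⟨_, mv3 4 0 0 0, ?_⟩)
      intro B hB
      rcases move_inv hB (by omega) (by omega) with h | h | h | h | h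
      · omega
      · rw [h.2.2]
        exact wins_iff.2 ⟨_, mv3 0 0 1 0, h011⟩
      · rw [h.2]
        exact wins_iff.2 ⟨_, mv2 0 1 0 0, h011⟩
      · omega
      · omega
  · rintro ⟨h2, h3, h6⟩
    by_cases h7 : 7 ≤ n
    · exact loses_start n (main n h7)
    · have h145 : n = 1 ∨ n = 4 ∨ n = 5 := by omega
      rcases h145 with rfl | rfl | rfl
      · apply loses_start
        exact terminal 1 0 0 le_rfl (by omega) (by omega) (by omega)
      · apply loses_start
        intro B hB
        obtain ⟨-, rfl⟩ := first_move hB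
        exact wins_iff.2 ⟨_, mv2 0 0 0 0, terminal 0 0 1 (by omega) (by omega) le_rfl (by omega)⟩
      · apply loses_start
        intro B hB
        obtain ⟨-, rfl⟩ := first_move hB
        exact wins_iff.2 ⟨_, mv2 1 0 0 0, terminal 1 0 1 le_rfl (by omega) le_rfl (by omega)⟩

end Pool.Agent.Results.MP_7f8e47_co.PlayerTwoWins
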